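import Pool.Agent.H21.FT.ListSplit
import Pool.Agent.H38.FT.D.Dod

/-! The search for one group and one set of points. -/

namespace Pool.Agent.H38.FT

open Code

set_option maxRecDepth 100000 in
theorem dodI_check_p0 : (((List.range dodM.n).drop 0).take 2).all
    (fun u => Nat.beq u 0 || checkU dodM.n dodIE (dodR.map fun r => masks r.W dodIhE) u) = true := by
  decide +kernel

set_option maxRecDepth 100000 in
theorem dodI_check_p1 : (((List.range dodM.n).drop 2).take 2).all
    (fun u => Nat.beq u 0 || checkU dodM.n dodIE (dodR.map fun r => masks r.W dodIhE) u) = true := by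
  decide +kernel

set_option maxRecDepth 100000 in
theorem dodI_check_p2 : (((List.range dodM.n).drop 4).take 2).all
    (fun u => Nat.beq u 0 || checkU dodM.n dodIE (dodR.map fun r => masks r.W dodIhE) u) = true := by
  decide +kernel

set_option maxRecDepth 100000 in
theorem dodI_check_p3 : (((List.range dodM.n).drop 6).take 2).all
    (fun u => Nat.beq u 0 || checkU dodM.n dodIE (dodR.map fun r => masks r.W dodIhE) u) = true := by
  decide +kernel

set_option maxRecDepth 100000 in
theorem dodI_check_p4 : (((List.range dodM.n).drop 8).take 2).all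
    (fun u => Nat.beq u 0 || checkU dodM.n dodIE (dodR.map fun r => masks r.W dodIhE) u) = true := by
  decide +kernel

set_option maxRecDepth 100000 in
theorem dodI_check_p5 : (((List.range dodM.n).drop 10).take 2).all
    (fun u => Nat.beq u 0 || checkU dodM.n dodIE (dodR.map fun r => masks r.W dodIhE) u) = true := by
  decide +kernel

set_option maxRecDepth 100000 in
theorem dodI_check_p6 : (((List.range dodM.n).drop 12).take 2).all
    (fun u => Nat.beq u 0 || checkU dodM.n dodIE (dodR.map fun r => masks r.W dodIhE) u) = true := by
  decide +kernel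

set_option maxRecDepth 100000 in
theorem dodI_check_p7 : (((List.range dodM.n).drop 14).take 2).all
    (fun u => Nat.beq u 0 || checkU dodM.n dodIE (dodR.map fun r => masks r.W dodIhE) u) = true := by
  decide +kernel

set_option maxRecDepth 100000 in
theorem dodI_check_p8 : (((List.range dodM.n).drop 16).take 2).all
    (fun u => Nat.beq u 0 || checkU dodM.n dodIE (dodR.map fun r => masks r.W dodIhE) u) = true := by
  decide +kernel

set_option maxRecDepth 100000 in
theorem dodI_check_p9 : ((List.range dodM.n).drop 18).all
    (fun u => Nat.beq u 0 || checkU dodM.n dodIE (dodR.map fun r => masks r.W dodIhE) u) = true := by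
  decide +kernel

theorem dodI_check : check dodM.n dodIE (dodR.map fun r => masks r.W dodIhE) = true := by
  change ((List.range dodM.n).drop 0).all _ = true
  refine Pool.Agent.H21.FT.all_step 0 2 dodI_check_p0 ?_
  refine Pool.Agent.H21.FT.all_step 2 2 dodI_check_p1 ?_
  refine Pool.Agent.H21.FT.all_step 4 2 dodI_check_p2 ?_
  refine Pool.Agent.H21.FT.all_step 6 2 dodI_check_p3 ?_
  refine Pool.Agent.H21.FT.all_step 8 2 dodI_check_p4 ?_
  refine Pool.Agent.H21.FT.all_step 10 2 dodI_check_p5 ?_
  refine Pool.Agent.H21.FT.all_step 12 2 dodI_check_p6 ?_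
  refine Pool.Agent.H21.FT.all_step 14 2 dodI_check_p7 ?_
  refine Pool.Agent.H21.FT.all_step 16 2 dodI_check_p8 ?_
  exact dodI_check_p9

end Pool.Agent.H38.FT
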