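import Pool.Agent.H21.FT.ListSplit
import Pool.Agent.H38.FT.D.Ici

/-! The search for one group and one set of points. -/

namespace Pool.Agent.H38.FT

open Code

set_option maxRecDepth 100000 in
theorem iciI_check_p0 : (((List.range iciM.n).drop 0).take 3).all
    (fun u => Nat.beq u 0 || checkU iciM.n iciIE (iciR.map fun r => masks r.W iciIhE) u) = true := by
  decide +kernel

set_option maxRecDepth 100000 in
theorem iciI_check_p1 : (((List.range iciM.n).drop 3).take 3).all
    (fun u => Nat.beq u 0 || checkU iciM.n iciIE (iciR.map fun r => masks r.W iciIhE) u) = true := by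
  decide +kernel

set_option maxRecDepth 100000 in
theorem iciI_check_p2 : (((List.range iciM.n).drop 6).take 3).all
    (fun u => Nat.beq u 0 || checkU iciM.n iciIE (iciR.map fun r => masks r.W iciIhE) u) = true := by
  decide +kernel

set_option maxRecDepth 100000 in
theorem iciI_check_p3 : (((List.range iciM.n).drop 9).take 3).all
    (fun u => Nat.beq u 0 || checkU iciM.n iciIE (iciR.map fun r => masks r.W iciIhE) u) = true := by
  decide +kernel

set_option maxRecDepth 100000 in
theorem iciI_check_p4 : (((List.range iciM.n).drop 12).take 3).all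
    (fun u => Nat.beq u 0 || checkU iciM.n iciIE (iciR.map fun r => masks r.W iciIhE) u) = true := by
  decide +kernel

set_option maxRecDepth 100000 in
theorem iciI_check_p5 : (((List.range iciM.n).drop 15).take 3).all
    (fun u => Nat.beq u 0 || checkU iciM.n iciIE (iciR.map fun r => masks r.W iciIhE) u) = true := by
  decide +kernel

set_option maxRecDepth 100000 in
theorem iciI_check_p6 : (((List.range iciM.n).drop 18).take 3).all
    (fun u => Nat.beq u 0 || checkU iciM.n iciIE (iciR.map fun r => masks r.W iciIhE) u) = true := by
  decide +kernel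

set_option maxRecDepth 100000 in
theorem iciI_check_p7 : (((List.range iciM.n).drop 21).take 3).all
    (fun u => Nat.beq u 0 || checkU iciM.n iciIE (iciR.map fun r => masks r.W iciIhE) u) = true := by
  decide +kernel

set_option maxRecDepth 100000 in
theorem iciI_check_p8 : (((List.range iciM.n).drop 24).take 3).all
    (fun u => Nat.beq u 0 || checkU iciM.n iciIE (iciR.map fun r => masks r.W iciIhE) u) = true := by
  decide +kernel

set_option maxRecDepth 100000 in
theorem iciI_check_p9 : ((List.range iciM.n).drop 27).all
    (fun u => Nat.beq u 0 || checkU iciM.n iciIE (iciR.map fun r => masks r.W iciIhE) u) = true := by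
  decide +kernel

theorem iciI_check : check iciM.n iciIE (iciR.map fun r => masks r.W iciIhE) = true := by
  change ((List.range iciM.n).drop 0).all _ = true
  refine Pool.Agent.H21.FT.all_step 0 3 iciI_check_p0 ?_
  refine Pool.Agent.H21.FT.all_step 3 3 iciI_check_p1 ?_
  refine Pool.Agent.H21.FT.all_step 6 3 iciI_check_p2 ?_
  refine Pool.Agent.H21.FT.all_step 9 3 iciI_check_p3 ?_
  refine Pool.Agent.H21.FT.all_step 12 3 iciI_check_p4 ?_
  refine Pool.Agent.H21.FT.all_step 15 3 iciI_check_p5 ?_
  refine Pool.Agent.H21.FT.all_step 18 3 iciI_check_p6 ?_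
  refine Pool.Agent.H21.FT.all_step 21 3 iciI_check_p7 ?_
  refine Pool.Agent.H21.FT.all_step 24 3 iciI_check_p8 ?_
  exact iciI_check_p9

end Pool.Agent.H38.FT
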