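import Pool.Agent.H21.FT.ListSplit
import Pool.Agent.H38.FT.D.Ici

/-! The search for one group and one set of points. -/

namespace Pool.Agent.H38.FT

open Code

set_option maxRecDepth 100000 in
theorem iciIh_check_p0 : (((List.range iciM.n).drop 0).take 2).all
    (fun u => Nat.beq u 0 || checkU iciM.n iciIhE (iciR.map fun r => masks r.W iciIhE) u) = true := by
  decide +kernel

set_option maxRecDepth 100000 in
theorem iciIh_check_p1 : (((List.range iciM.n).drop 2).take 2).all
    (fun u => Nat.beq u 0 || checkU iciM.n iciIhE (iciR.map fun r => masks r.W iciIhE) u) = true := by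
  decide +kernel

set_option maxRecDepth 100000 in
theorem iciIh_check_p2 : (((List.range iciM.n).drop 4).take 2).all
    (fun u => Nat.beq u 0 || checkU iciM.n iciIhE (iciR.map fun r => masks r.W iciIhE) u) = true := by
  decide +kernel

set_option maxRecDepth 100000 in
theorem iciIh_check_p3 : (((List.range iciM.n).drop 6).take 2).all
    (fun u => Nat.beq u 0 || checkU iciM.n iciIhE (iciR.map fun r => masks r.W iciIhE) u) = true := by
  decide +kernel

set_option maxRecDepth 100000 in
theorem iciIh_check_p4 : (((List.range iciM.n).drop 8).take 2).all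
    (fun u => Nat.beq u 0 || checkU iciM.n iciIhE (iciR.map fun r => masks r.W iciIhE) u) = true := by
  decide +kernel

set_option maxRecDepth 100000 in
theorem iciIh_check_p5 : (((List.range iciM.n).drop 10).take 2).all
    (fun u => Nat.beq u 0 || checkU iciM.n iciIhE (iciR.map fun r => masks r.W iciIhE) u) = true := by
  decide +kernel

set_option maxRecDepth 100000 in
theorem iciIh_check_p6 : (((List.range iciM.n).drop 12).take 2).all
    (fun u => Nat.beq u 0 || checkU iciM.n iciIhE (iciR.map fun r => masks r.W iciIhE) u) = true := by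
  decide +kernel

set_option maxRecDepth 100000 in
theorem iciIh_check_p7 : (((List.range iciM.n).drop 14).take 2).all
    (fun u => Nat.beq u 0 || checkU iciM.n iciIhE (iciR.map fun r => masks r.W iciIhE) u) = true := by
  decide +kernel

set_option maxRecDepth 100000 in
theorem iciIh_check_p8 : (((List.range iciM.n).drop 16).take 2).all
    (fun u => Nat.beq u 0 || checkU iciM.n iciIhE (iciR.map fun r => masks r.W iciIhE) u) = true := by
  decide +kernel

set_option maxRecDepth 100000 in
theorem iciIh_check_p9 : (((List.range iciM.n).drop 18).take 2).all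
    (fun u => Nat.beq u 0 || checkU iciM.n iciIhE (iciR.map fun r => masks r.W iciIhE) u) = true := by
  decide +kernel

set_option maxRecDepth 100000 in
theorem iciIh_check_p10 : (((List.range iciM.n).drop 20).take 2).all
    (fun u => Nat.beq u 0 || checkU iciM.n iciIhE (iciR.map fun r => masks r.W iciIhE) u) = true := by
  decide +kernel

set_option maxRecDepth 100000 in
theorem iciIh_check_p11 : (((List.range iciM.n).drop 22).take 2).all
    (fun u => Nat.beq u 0 || checkU iciM.n iciIhE (iciR.map fun r => masks r.W iciIhE) u) = true := by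
  decide +kernel

set_option maxRecDepth 100000 in
theorem iciIh_check_p12 : (((List.range iciM.n).drop 24).take 2).all
    (fun u => Nat.beq u 0 || checkU iciM.n iciIhE (iciR.map fun r => masks r.W iciIhE) u) = true := by
  decide +kernel

set_option maxRecDepth 100000 in
theorem iciIh_check_p13 : (((List.range iciM.n).drop 26).take 2).all
    (fun u => Nat.beq u 0 || checkU iciM.n iciIhE (iciR.map fun r => masks r.W iciIhE) u) = true := by
  decide +kernel

set_option maxRecDepth 100000 in
theorem iciIh_check_p14 : ((List.range iciM.n).drop 28).all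
    (fun u => Nat.beq u 0 || checkU iciM.n iciIhE (iciR.map fun r => masks r.W iciIhE) u) = true := by
  decide +kernel

theorem iciIh_check : check iciM.n iciIhE (iciR.map fun r => masks r.W iciIhE) = true := by
  change ((List.range iciM.n).drop 0).all _ = true
  refine Pool.Agent.H21.FT.all_step 0 2 iciIh_check_p0 ?_
  refine Pool.Agent.H21.FT.all_step 2 2 iciIh_check_p1 ?_
  refine Pool.Agent.H21.FT.all_step 4 2 iciIh_check_p2 ?_
  refine Pool.Agent.H21.FT.all_step 6 2 iciIh_check_p3 ?_
  refine Pool.Agent.H21.FT.all_step 8 2 iciIh_check_p4 ?_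
  refine Pool.Agent.H21.FT.all_step 10 2 iciIh_check_p5 ?_
  refine Pool.Agent.H21.FT.all_step 12 2 iciIh_check_p6 ?_
  refine Pool.Agent.H21.FT.all_step 14 2 iciIh_check_p7 ?_
  refine Pool.Agent.H21.FT.all_step 16 2 iciIh_check_p8 ?_
  refine Pool.Agent.H21.FT.all_step 18 2 iciIh_check_p9 ?_
  refine Pool.Agent.H21.FT.all_step 20 2 iciIh_check_p10 ?_
  refine Pool.Agent.H21.FT.all_step 22 2 iciIh_check_p11 ?_
  refine Pool.Agent.H21.FT.all_step 24 2 iciIh_check_p12 ?_
  refine Pool.Agent.H21.FT.all_step 26 2 iciIh_check_p13 ?_
  exact iciIh_check_p14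

end Pool.Agent.H38.FT
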