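import Pool.Agent.H38.FT.D.Ohs

/-! The search for one group and one set of points. -/

namespace Pool.Agent.H38.FT

open Code

theorem ohsOh_check : check ohsM.n ohsOhE (ohsR.map fun r => masks r.W ohsOhE) = true := by
  decide +kernel

end Pool.Agent.H38.FT
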