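import Pool.Agent.H21.FT.ListSplit
import Pool.Agent.H38.FT.D.Ihm

/-! The search for one group and one set of points. -/

namespace Pool.Agent.H38.FT

open Code

set_option maxRecDepth 100000 in
theorem ihmIh_check_p0 : (((List.range ihmM.n).drop 0).take 3).all
    (fun u => Nat.beq u 0 || checkU ihmM.n ihmIhE (ihmR.map fun r => masks r.W ihmIhE) u) = true := by
  decide +kernel

set_option maxRecDepth 100000 in
theorem ihmIh_check_p1 : (((List.range ihmM.n).drop 3).take 3).all
    (fun u => Nat.beq u 0 || checkU ihmM.n ihmIhE (ihmR.map fun r => masks r.W ihmIhE) u) = true := by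
  decide +kernel

set_option maxRecDepth 100000 in
theorem ihmIh_check_p2 : (((List.range ihmM.n).drop 6).take 3).all
    (fun u => Nat.beq u 0 || checkU ihmM.n ihmIhE (ihmR.map fun r => masks r.W ihmIhE) u) = true := by
  decide +kernel

set_option maxRecDepth 100000 in
theorem ihmIh_check_p3 : (((List.range ihmM.n).drop 9).take 3).all
    (fun u => Nat.beq u 0 || checkU ihmM.n ihmIhE (ihmR.map fun r => masks r.W ihmIhE) u) = true := by
  decide +kernel

set_option maxRecDepth 100000 in
theorem ihmIh_check_p4 : (((List.range ihmM.n).drop 12).take 3).all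
    (fun u => Nat.beq u 0 || checkU ihmM.n ihmIhE (ihmR.map fun r => masks r.W ihmIhE) u) = true := by
  decide +kernel

set_option maxRecDepth 100000 in
theorem ihmIh_check_p5 : (((List.range ihmM.n).drop 15).take 3).all
    (fun u => Nat.beq u 0 || checkU ihmM.n ihmIhE (ihmR.map fun r => masks r.W ihmIhE) u) = true := by
  decide +kernel

set_option maxRecDepth 100000 in
theorem ihmIh_check_p6 : (((List.range ihmM.n).drop 18).take 3).all
    (fun u => Nat.beq u 0 || checkU ihmM.n ihmIhE (ihmR.map fun r => masks r.W ihmIhE) u) = true := by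
  decide +kernel

set_option maxRecDepth 100000 in
theorem ihmIh_check_p7 : (((List.range ihmM.n).drop 21).take 3).all
    (fun u => Nat.beq u 0 || checkU ihmM.n ihmIhE (ihmR.map fun r => masks r.W ihmIhE) u) = true := by
  decide +kernel

set_option maxRecDepth 100000 in
theorem ihmIh_check_p8 : (((List.range ihmM.n).drop 24).take 3).all
    (fun u => Nat.beq u 0 || checkU ihmM.n ihmIhE (ihmR.map fun r => masks r.W ihmIhE) u) = true := by
  decide +kernel

set_option maxRecDepth 100000 in
theorem ihmIh_check_p9 : (((List.range ihmM.n).drop 27).take 3).all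
    (fun u => Nat.beq u 0 || checkU ihmM.n ihmIhE (ihmR.map fun r => masks r.W ihmIhE) u) = true := by
  decide +kernel

set_option maxRecDepth 100000 in
theorem ihmIh_check_p10 : (((List.range ihmM.n).drop 30).take 3).all
    (fun u => Nat.beq u 0 || checkU ihmM.n ihmIhE (ihmR.map fun r => masks r.W ihmIhE) u) = true := by
  decide +kernel

set_option maxRecDepth 100000 in
theorem ihmIh_check_p11 : (((List.range ihmM.n).drop 33).take 3).all
    (fun u => Nat.beq u 0 || checkU ihmM.n ihmIhE (ihmR.map fun r => masks r.W ihmIhE) u) = true := by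
  decide +kernel

set_option maxRecDepth 100000 in
theorem ihmIh_check_p12 : (((List.range ihmM.n).drop 36).take 3).all
    (fun u => Nat.beq u 0 || checkU ihmM.n ihmIhE (ihmR.map fun r => masks r.W ihmIhE) u) = true := by
  decide +kernel

set_option maxRecDepth 100000 in
theorem ihmIh_check_p13 : (((List.range ihmM.n).drop 39).take 3).all
    (fun u => Nat.beq u 0 || checkU ihmM.n ihmIhE (ihmR.map fun r => masks r.W ihmIhE) u) = true := by
  decide +kernel

set_option maxRecDepth 100000 in
theorem ihmIh_check_p14 : (((List.range ihmM.n).drop 42).take 3).all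
    (fun u => Nat.beq u 0 || checkU ihmM.n ihmIhE (ihmR.map fun r => masks r.W ihmIhE) u) = true := by
  decide +kernel

set_option maxRecDepth 100000 in
theorem ihmIh_check_p15 : (((List.range ihmM.n).drop 45).take 3).all
    (fun u => Nat.beq u 0 || checkU ihmM.n ihmIhE (ihmR.map fun r => masks r.W ihmIhE) u) = true := by
  decide +kernel

set_option maxRecDepth 100000 in
theorem ihmIh_check_p16 : (((List.range ihmM.n).drop 48).take 3).all
    (fun u => Nat.beq u 0 || checkU ihmM.n ihmIhE (ihmR.map fun r => masks r.W ihmIhE) u) = true := by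
  decide +kernel

set_option maxRecDepth 100000 in
theorem ihmIh_check_p17 : (((List.range ihmM.n).drop 51).take 3).all
    (fun u => Nat.beq u 0 || checkU ihmM.n ihmIhE (ihmR.map fun r => masks r.W ihmIhE) u) = true := by
  decide +kernel

set_option maxRecDepth 100000 in
theorem ihmIh_check_p18 : (((List.range ihmM.n).drop 54).take 3).all
    (fun u => Nat.beq u 0 || checkU ihmM.n ihmIhE (ihmR.map fun r => masks r.W ihmIhE) u) = true := by
  decide +kernel

set_option maxRecDepth 100000 in
theorem ihmIh_check_p19 : ((List.range ihmM.n).drop 57).all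
    (fun u => Nat.beq u 0 || checkU ihmM.n ihmIhE (ihmR.map fun r => masks r.W ihmIhE) u) = true := by
  decide +kernel

theorem ihmIh_check : check ihmM.n ihmIhE (ihmR.map fun r => masks r.W ihmIhE) = true := by
  change ((List.range ihmM.n).drop 0).all _ = true
  refine Pool.Agent.H21.FT.all_step 0 3 ihmIh_check_p0 ?_
  refine Pool.Agent.H21.FT.all_step 3 3 ihmIh_check_p1 ?_
  refine Pool.Agent.H21.FT.all_step 6 3 ihmIh_check_p2 ?_
  refine Pool.Agent.H21.FT.all_step 9 3 ihmIh_check_p3 ?_
  refine Pool.Agent.H21.FT.all_step 12 3 ihmIh_check_p4 ?_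
  refine Pool.Agent.H21.FT.all_step 15 3 ihmIh_check_p5 ?_
  refine Pool.Agent.H21.FT.all_step 18 3 ihmIh_check_p6 ?_
  refine Pool.Agent.H21.FT.all_step 21 3 ihmIh_check_p7 ?_
  refine Pool.Agent.H21.FT.all_step 24 3 ihmIh_check_p8 ?_
  refine Pool.Agent.H21.FT.all_step 27 3 ihmIh_check_p9 ?_
  refine Pool.Agent.H21.FT.all_step 30 3 ihmIh_check_p10 ?_
  refine Pool.Agent.H21.FT.all_step 33 3 ihmIh_check_p11 ?_
  refine Pool.Agent.H21.FT.all_step 36 3 ihmIh_check_p12 ?_
  refine Pool.Agent.H21.FT.all_step 39 3 ihmIh_check_p13 ?_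
  refine Pool.Agent.H21.FT.all_step 42 3 ihmIh_check_p14 ?_
  refine Pool.Agent.H21.FT.all_step 45 3 ihmIh_check_p15 ?_
  refine Pool.Agent.H21.FT.all_step 48 3 ihmIh_check_p16 ?_
  refine Pool.Agent.H21.FT.all_step 51 3 ihmIh_check_p17 ?_
  refine Pool.Agent.H21.FT.all_step 54 3 ihmIh_check_p18 ?_
  exact ihmIh_check_p19

end Pool.Agent.H38.FT
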